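import Mathlib

/-!
# Fractional knapsack for nearly proportional weights

Let `u`, `s ≥ 0` be functions on a finite set `P` with `∑ u ≤ 3`, `∑ s` close to `1` and all `s p`
small.  Either there is a set of complement `u`-mass at most `1 - g` whose `s`-weight is at most
`2 / 3 - g`, or `u` is close to `3 s` in `ℓ¹`.
-/

open Finset

namespace Pool.Agent.Lib.Pabc12

/-- Greedy sets reach the average density, up to one element. -/
theorem avg_greedy (u s : ℕ → ℝ) (h : ℝ) (n : ℕ) : ∀ P : Finset ℕ, P.card = n →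
    (∀ p ∈ P, 0 ≤ u p) → (∀ p ∈ P, 0 ≤ s p ∧ s p ≤ h) → ∀ B : ℝ, 0 ≤ B → B ≤ ∑ p ∈ P, u p →
    ∃ Q ⊆ P, ∑ p ∈ Q, u p ≤ B ∧ B * ∑ p ∈ P, s p ≤ (∑ p ∈ Q, s p + h) * ∑ p ∈ P, u p := by
  classical
  induction n with
  | zero =>
    intro P hP _ _ B hB0 hB
    rw [Finset.card_eq_zero] at hP
    subst hP
    refine ⟨∅, Finset.Subset.refl _, by simpa using hB0, by simp⟩
  | succ n ih =>
    intro P hP hu hs B hB0 hB
    have hne : P.Nonempty := by
      rw [← Finset.card_pos]
      omega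
    -- element of maximal density: minimal `s / u`, compared by cross multiplication
    obtain ⟨a, ha, hmax⟩ : ∃ a ∈ P, ∀ p ∈ P, u p * s a ≤ u a * s p := by
      by_cases h0 : ∃ a ∈ P, s a = 0 ∧ 0 < u a
      · obtain ⟨a, ha, hsa, hua⟩ := h0
        refine ⟨a, ha, fun p hp => ?_⟩
        rw [hsa, mul_zero]
        exact mul_nonneg hua.le (hs p hp).1
      · push Not at h0
        by_cases h1 : ∃ p ∈ P, 0 < s p
        · obtain ⟨p0, hp0, hsp0⟩ := h1
          obtain ⟨a, ha, hmx⟩ := Finset.exists_max_image (P.filter (fun p => 0 < s p))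
            (fun p => u p / s p) ⟨p0, Finset.mem_filter.mpr ⟨hp0, hsp0⟩⟩
          rw [Finset.mem_filter] at ha
          refine ⟨a, ha.1, fun p hp => ?_⟩
          rcases (hs p hp).1.eq_or_lt with hz | hz
          · have h2 := h0 p hp hz.symm
            have h3 : u p = 0 := le_antisymm h2 (hu p hp)
            rw [h3, ← hz]
            simp
          · have h2 := hmx p (Finset.mem_filter.mpr ⟨hp, hz⟩)
            rw [div_le_div_iff₀ hz ha.2] at h2
            linarith
        · push Not at h1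
          obtain ⟨a, ha⟩ := hne
          refine ⟨a, ha, fun p hp => ?_⟩
          have h2 : s a = 0 := le_antisymm (h1 a ha) (hs a ha).1
          have h3 : s p = 0 := le_antisymm (h1 p hp) (hs p hp).1
          rw [h2, h3]
          simp
    have e1 : u a + ∑ p ∈ P.erase a, u p = ∑ p ∈ P, u p := Finset.add_sum_erase P u ha
    have e2 : s a + ∑ p ∈ P.erase a, s p = ∑ p ∈ P, s p := Finset.add_sum_erase P s ha
    have hua := hu a ha
    have hsa := hs a ha
    rcases le_total B (∑ p ∈ P.erase a, u p) with hc | hc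
    · obtain ⟨Q, hQ, h1, h2⟩ := ih (P.erase a) (by rw [Finset.card_erase_of_mem ha, hP]; rfl)
        (fun p hp => hu p (Finset.mem_of_mem_erase hp))
        (fun p hp => hs p (Finset.mem_of_mem_erase hp)) B hB0 hc
      refine ⟨Q, hQ.trans (Finset.erase_subset _ _), h1, ?_⟩
      have h3 : (∑ p ∈ P.erase a, u p) * s a ≤ u a * ∑ p ∈ P.erase a, s p := by
        rw [Finset.sum_mul, Finset.mul_sum]
        exact Finset.sum_le_sum (fun p hp => hmax p (Finset.mem_of_mem_erase hp))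
      set U := ∑ p ∈ P.erase a, u p with hU
      set V := ∑ p ∈ P.erase a, s p with hV
      set q := ∑ p ∈ Q, s p with hq
      have hV0 : 0 ≤ V := Finset.sum_nonneg (fun p hp => (hs p (Finset.mem_of_mem_erase hp)).1)
      have hq0 : 0 ≤ q + h := by
        have : 0 ≤ q := Finset.sum_nonneg
          (fun p hp => (hs p (Finset.mem_of_mem_erase (hQ hp))).1)
        linarith [hsa.1.trans hsa.2]
      rw [← e1, ← e2]
      rcases hB0.eq_or_lt with hB00 | hB00
      · rw [← hB00, zero_mul]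
        have hU0 : 0 ≤ U := Finset.sum_nonneg (fun p hp => hu p (Finset.mem_of_mem_erase hp))
        exact mul_nonneg hq0 (by linarith)
      · have hU0 : 0 < U := lt_of_lt_of_le hB00 hc
        -- B V ≤ (q + h) U, U s_a ≤ u_a V
        have h4 : B * (s a * U) ≤ B * (u a * V) := by
          apply mul_le_mul_of_nonneg_left _ hB0
          linarith
        have h5 : B * V * u a ≤ (q + h) * U * u a := mul_le_mul_of_nonneg_right h2 hua
        have h6 : U * (B * (s a + V)) ≤ U * ((q + h) * (u a + U)) := by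
          have h7 : U * (B * V) ≤ U * ((q + h) * U) := mul_le_mul_of_nonneg_left h2 hU0.le
          nlinarith
        exact le_of_mul_le_mul_left h6 hU0
    · refine ⟨P.erase a, Finset.erase_subset _ _, hc, ?_⟩
      have hS0 : 0 ≤ ∑ p ∈ P, s p := Finset.sum_nonneg (fun p hp => (hs p hp).1)
      have hU0 : 0 ≤ ∑ p ∈ P, u p := Finset.sum_nonneg hu
      have h3 : ∑ p ∈ P, s p ≤ ∑ p ∈ P.erase a, s p + h := by linarith [hsa.2]
      calc B * ∑ p ∈ P, s p ≤ (∑ p ∈ P, u p) * ∑ p ∈ P, s p :=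
            mul_le_mul_of_nonneg_right hB hS0
        _ ≤ (∑ p ∈ P, u p) * (∑ p ∈ P.erase a, s p + h) := mul_le_mul_of_nonneg_left h3 hU0
        _ = _ := mul_comm _ _

/-- The knapsack alternative. -/
theorem cover_T {P : Finset ℕ} {u s : ℕ → ℝ} {g τ : ℝ} (hg : 0 < g) (hg1 : g ≤ 1 / 1000)
    (hτ : 1000 * g ≤ τ) (hu : ∀ p ∈ P, 0 ≤ u p) (hs : ∀ p ∈ P, 0 ≤ s p ∧ s p ≤ 5 * g)
    (hU : ∑ p ∈ P, u p ≤ 3) (hW : ∑ p ∈ P, s p ≤ 1) (hW1 : 1 - 5 * g ≤ ∑ p ∈ P, s p) :
    (∃ S ⊆ P, ∑ p ∈ S, s p ≤ 2 / 3 - g ∧ ∑ p ∈ P \ S, u p ≤ 1 - g) ∨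
      ∑ p ∈ P, |u p - 3 * s p| ≤ τ := by
  classical
  by_contra hcon
  push Not at hcon
  obtain ⟨hno, hV⟩ := hcon
  -- reformulation: no good `Q`
  have hno' : ∀ Q ⊆ P, ∑ p ∈ Q, u p ≤ 1 - g → ∑ p ∈ Q, s p < 1 / 3 + g := by
    intro Q hQ hQu
    by_contra hc
    push Not at hc
    have e1 : ∑ p ∈ P \ Q, s p + ∑ p ∈ Q, s p = ∑ p ∈ P, s p := Finset.sum_sdiff hQ
    have h1 := hno (P \ Q) Finset.sdiff_subset (by linarith)
    rw [Finset.sdiff_sdiff_eq_self hQ] at h1
    linarith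
  have hnog := fun Q hQ hQu => hno' Q hQ hQu
  set W := ∑ p ∈ P, s p with hWdef
  set U := ∑ p ∈ P, u p with hUdef
  have hU1 : 1 - g < U := by
    by_contra hc
    push Not at hc
    have := hno' P (Finset.Subset.refl _) hc
    rw [← hWdef] at this
    linarith
  have hU2 : 5 / 2 < U := by
    by_contra hc
    push Not at hc
    obtain ⟨Q, hQ, h1, h2⟩ := avg_greedy u s (5 * g) P.card P rfl hu hs (1 - g) (by linarith)
      hU1.le
    rw [← hUdef, ← hWdef] at h2
    have h3 := hno' Q hQ h1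
    have hq0 : 0 ≤ ∑ p ∈ Q, s p := Finset.sum_nonneg (fun p hp => (hs p (hQ hp)).1)
    nlinarith
  set Pp := P.filter (fun p => 3 * s p < u p) with hPp
  set Pm := P.filter (fun p => ¬ 3 * s p < u p) with hPm
  have eu : ∑ p ∈ Pp, u p + ∑ p ∈ Pm, u p = U := Finset.sum_filter_add_sum_filter_not _ _ _
  have es : ∑ p ∈ Pp, s p + ∑ p ∈ Pm, s p = W := Finset.sum_filter_add_sum_filter_not _ _ _
  have ev : ∑ p ∈ P, |u p - 3 * s p| = (∑ p ∈ Pp, u p - 3 * ∑ p ∈ Pp, s p) +
      (3 * ∑ p ∈ Pm, s p - ∑ p ∈ Pm, u p) := by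
    rw [← Finset.sum_filter_add_sum_filter_not P (fun p => 3 * s p < u p)]
    congr 1
    · rw [Finset.mul_sum, ← Finset.sum_sub_distrib]
      apply Finset.sum_congr rfl
      intro p hp
      have := (Finset.mem_filter.mp hp).2
      rw [abs_of_pos (by linarith)]
    · rw [Finset.mul_sum, ← Finset.sum_sub_distrib]
      apply Finset.sum_congr rfl
      intro p hp
      have := (Finset.mem_filter.mp hp).2
      push Not at this
      rw [abs_of_nonpos (by linarith)]
      ring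
  rw [ev] at hV
  set mp := ∑ p ∈ Pp, u p with hmp
  set mm := ∑ p ∈ Pm, u p with hmm
  set pp := ∑ p ∈ Pp, s p with hpp
  set pm := ∑ p ∈ Pm, s p with hpm
  have hmm0 : 0 ≤ mm := Finset.sum_nonneg (fun p hp => hu p (Finset.mem_filter.mp hp).1)
  have hmp0 : 0 ≤ mp := Finset.sum_nonneg (fun p hp => hu p (Finset.mem_filter.mp hp).1)
  have hpm0 : 0 ≤ pm := Finset.sum_nonneg (fun p hp => (hs p (Finset.mem_filter.mp hp).1).1)
  have hpp0 : 0 ≤ pp := Finset.sum_nonneg (fun p hp => (hs p (Finset.mem_filter.mp hp).1).1)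
  obtain ⟨Em, hEm⟩ : ∃ Em : ℝ, Em = 3 * pm - mm := ⟨_, rfl⟩
  obtain ⟨Ep, hEp⟩ : ∃ Ep : ℝ, Ep = mp - 3 * pp := ⟨_, rfl⟩
  have hdiff : Ep - Em ≤ 15 * g := by
    rw [hEm, hEp]
    linarith
  have hEm1 : 492 * g ≤ Em := by
    have : τ < Ep + Em := by rw [hEm, hEp]; linarith
    linarith
  rcases le_or_gt (1 - g) mm with hc | hc
  · -- budget inside `Pm`
    obtain ⟨Q, hQ, h1, h2⟩ := avg_greedy u s (5 * g) Pm.card Pm rfl
      (fun p hp => hu p (Finset.mem_filter.mp hp).1)
      (fun p hp => hs p (Finset.mem_filter.mp hp).1) (1 - g) (by linarith) hc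
    rw [← hmm, ← hpm] at h2
    have h3 := hno' Q (hQ.trans (Finset.filter_subset _ _)) h1
    have h4 : pm = (mm + Em) / 3 := by rw [hEm]; ring
    rw [h4] at h2
    set q := ∑ p ∈ Q, s p
    have hmm3 : mm ≤ 3 := by linarith
    -- (1-g)(mm+Em)/3 ≤ (q+5g) mm ≤ (1/3 + 6g) mm
    have h5 : (q + 5 * g) * mm ≤ (1 / 3 + 6 * g) * mm :=
      mul_le_mul_of_nonneg_right (by linarith) hmm0
    nlinarith
  · have hB : 1 - g - mm ≤ mp := by linarith
    obtain ⟨Q, hQ, h1, h2⟩ := avg_greedy u s (5 * g) Pp.card Pp rfl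
      (fun p hp => hu p (Finset.mem_filter.mp hp).1)
      (fun p hp => hs p (Finset.mem_filter.mp hp).1) (1 - g - mm) (by linarith) hB
    rw [← hmp, ← hpp] at h2
    have hd : Disjoint Pm Q := by
      rw [Finset.disjoint_left]
      intro p hp hp2
      exact (Finset.mem_filter.mp hp).2 (Finset.mem_filter.mp (hQ hp2)).2
    have h3 := hno' (Pm ∪ Q) (Finset.union_subset (Finset.filter_subset _ _)
      (hQ.trans (Finset.filter_subset _ _))) (by
        rw [Finset.sum_union hd]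
        linarith)
    rw [Finset.sum_union hd, ← hpm] at h3
    set q := ∑ p ∈ Q, s p
    have hmp1 : 3 / 2 < mp := by linarith
    have h4 : pp = (mp - Ep) / 3 := by rw [hEp]; ring
    have h5 : pm = (mm + Em) / 3 := by rw [hEm]; ring
    have hEp0 : 0 ≤ Ep := by
      rw [hEp, hmp, hpp, Finset.mul_sum, ← Finset.sum_sub_distrib]
      apply Finset.sum_nonneg
      intro p hp
      have := (Finset.mem_filter.mp hp).2
      linarith
    -- (B - mm) pp ≤ (q + 5 g) mp
    have h6 : 5 * (1 - g - mm) ≤ 2 * mp := by linarith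
    have h7 : (1 - g - mm) * Ep ≤ 2 / 5 * mp * Ep := by
      apply mul_le_mul_of_nonneg_right _ hEp0
      linarith
    have h8 : mp * ((1 - g - mm) / 3 - 2 / 15 * Ep) ≤ mp * (q + 5 * g) := by
      rw [h4] at h2
      nlinarith
    have h9 : (1 - g - mm) / 3 - 2 / 15 * Ep ≤ q + 5 * g :=
      le_of_mul_le_mul_left h8 (by linarith)
    rw [h5] at h3
    linarith

end Pool.Agent.Lib.Pabc12
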