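import Mathlib
import Pool.Agent.Lib.Pabc6.Cover
import Pool.Agent.Lib.Pabc12.Knap

/-!
# The covering lemma for tall triples

`P` is a finite set of primes, `lb` the labels (members), `u` the masses, `s` the weights.
-/

open Finset

namespace Pool.Agent.Lib.Pabc12

/-- Structure of type `K`: known set `S`, modulus label `l`, at most `k` heavy free elements `H`,
and a light rest. -/
def KS (P : Finset ℕ) (lb : ℕ → Fin 3) (u s : ℕ → ℝ) (σ δ c : ℝ) (k : ℕ) : Prop :=
  ∃ S ⊆ P, ∃ l : Fin 3, ∑ p ∈ S, s p ≤ σ ∧ δ ≤ ∑ p ∈ S.filter (fun p => lb p = l), u p ∧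
    ∃ H ⊆ P \ S, H.card ≤ k ∧ ∑ p ∈ (P \ (S ∪ H)).filter (fun p => lb p ≠ l), u p ≤ c

/-- the mass of the small elements of a label. -/
noncomputable def fm (P : Finset ℕ) (lb : ℕ → Fin 3) (u s : ℕ → ℝ) (g : ℝ) (l : Fin 3) : ℝ :=
  ∑ p ∈ (P.filter (fun p => s p < g)).filter (fun p => lb p = l), u p

/-- the weight of the small elements of a label. -/
noncomputable def fw (P : Finset ℕ) (lb : ℕ → Fin 3) (s : ℕ → ℝ) (g : ℝ) (l : Fin 3) : ℝ :=
  ∑ p ∈ (P.filter (fun p => s p < g)).filter (fun p => lb p = l), s p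

section

variable {P : Finset ℕ} {lb : ℕ → Fin 3} {u s : ℕ → ℝ} {g : ℝ} {k : ℕ}

theorem exists_other (l : Fin 3) : ∃ i j : Fin 3, i ≠ l ∧ j ≠ l ∧ i ≠ j ∧
    ∀ m : Fin 3, m ≠ l → m = i ∨ m = j := by
  fin_cases l
  · exact ⟨1, 2, by decide, by decide, by decide, by decide⟩
  · exact ⟨0, 2, by decide, by decide, by decide, by decide⟩
  · exact ⟨0, 1, by decide, by decide, by decide, by decide⟩

theorem fm_nonneg (hu : ∀ p ∈ P, 0 ≤ u p) (l : Fin 3) : 0 ≤ fm P lb u s g l :=
  Finset.sum_nonneg (fun p hp => hu p (Finset.mem_filter.mp (Finset.mem_filter.mp hp).1).1)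

theorem fw_nonneg (hs : ∀ p ∈ P, 0 ≤ s p) (l : Fin 3) : 0 ≤ fw P lb s g l :=
  Finset.sum_nonneg (fun p hp => hs p (Finset.mem_filter.mp (Finset.mem_filter.mp hp).1).1)

/-- The number of big elements. -/
theorem card_big (hs : ∀ p ∈ P, 0 ≤ s p) (hW : ∑ p ∈ P, s p ≤ 1) (hg : 0 < g)
    (hk : 1 ≤ g * ((k : ℝ) + 1)) {H : Finset ℕ} (hH : H ⊆ P.filter (fun p => ¬ s p < g)) :
    H.card ≤ k + 1 := by
  have h1 : (H.card : ℝ) * g ≤ ∑ p ∈ H, s p := by
    rw [← nsmul_eq_mul]
    apply Finset.card_nsmul_le_sum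
    intro p hp
    exact not_lt.mp (Finset.mem_filter.mp (hH hp)).2
  have h2 : ∑ p ∈ H, s p ≤ ∑ p ∈ P, s p :=
    Finset.sum_le_sum_of_subset_of_nonneg (hH.trans (Finset.filter_subset _ _))
      (fun p hp _ => hs p hp)
  have h3 : (H.card : ℝ) * g ≤ ((k : ℝ) + 1) * g := by linarith
  have h4 : (H.card : ℝ) ≤ (k : ℝ) + 1 := le_of_mul_le_mul_right h3 hg
  exact_mod_cast h4

/-- A cheap modulus in a label whose small elements carry mass. -/
theorem cheap_mod (hu : ∀ p ∈ P, 0 ≤ u p) (hs : ∀ p ∈ P, 0 ≤ s p) (hW : ∑ p ∈ P, s p ≤ 1)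
    (hg : 0 < g) (hk : 1 ≤ g * ((k : ℝ) + 1)) {θ : ℝ} (hθ : 0 < θ) {l : Fin 3}
    (h : θ ≤ fm P lb u s g l) :
    ∃ K ⊆ (P.filter (fun p => s p < g)).filter (fun p => lb p = l),
      θ / (2 * ((k : ℝ) + 1)) ≤ ∑ p ∈ K, u p ∧ ∑ p ∈ K, s p ≤ 2 * g := by
  classical
  have hk0 : (0 : ℝ) < (k : ℝ) + 1 := by positivity
  set A := (P.filter (fun p => s p < g)).filter (fun p => lb p = l) with hA
  have hAP : A ⊆ P := (Finset.filter_subset _ _).trans (Finset.filter_subset _ _)
  obtain ⟨r, hr, K, hK, h1, h2⟩ := Pabc6.cheap (δ := θ / (2 * ((k : ℝ) + 1))) (by positivity) u s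
    k A (fun p hp => hu p (hAP hp)) (fun p hp => hs p (hAP hp)) (by
      have e : 2 * ((k : ℝ) + 1) * (θ / (2 * ((k : ℝ) + 1))) = θ := by field_simp
      rw [e]
      exact h)
  refine ⟨K, hK, h1, ?_⟩
  have h3 : s r < g := (Finset.mem_filter.mp (Finset.mem_filter.mp hr).1).2
  have h4 : ∑ p ∈ A, s p ≤ 1 :=
    (Finset.sum_le_sum_of_subset_of_nonneg hAP (fun p hp _ => hs p hp)).trans hW
  have h5 : ((k : ℝ) + 1) * ∑ p ∈ K, s p ≤ ((k : ℝ) + 1) * (2 * g) := by
    have : ((k : ℝ) + 1) * s r ≤ ((k : ℝ) + 1) * g := mul_le_mul_of_nonneg_left h3.le hk0.le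
    nlinarith
  exact le_of_mul_le_mul_left h5 hk0

/-- Elements outside `S ∪ H` with label `≠ l`, when `H` consists of all big elements outside `S`
with label `≠ l`, are small; if moreover `S` contains the small elements of the labels in a set
`G`, they have a label outside `G`. -/
theorem rest_le (hu : ∀ p ∈ P, 0 ≤ u p) {S : Finset ℕ} {l i j : Fin 3}
    (hij : ∀ m : Fin 3, m ≠ l → m = i ∨ m = j) :
    ∑ p ∈ (P \ (S ∪ ((P \ S).filter (fun p => ¬ s p < g ∧ lb p ≠ l)))).filter
      (fun p => lb p ≠ l), u p ≤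
      ∑ p ∈ ((P.filter (fun p => s p < g)).filter (fun p => lb p = i)) \ S, u p +
      ∑ p ∈ ((P.filter (fun p => s p < g)).filter (fun p => lb p = j)) \ S, u p := by
  classical
  have h1 : (P \ (S ∪ ((P \ S).filter (fun p => ¬ s p < g ∧ lb p ≠ l)))).filter
      (fun p => lb p ≠ l) ⊆ (((P.filter (fun p => s p < g)).filter (fun p => lb p = i)) \ S) ∪
        (((P.filter (fun p => s p < g)).filter (fun p => lb p = j)) \ S) := by
    intro p hp
    simp only [Finset.mem_filter, Finset.mem_sdiff, Finset.mem_union] at hp ⊢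
    obtain ⟨⟨hpP, hpn⟩, hpl⟩ := hp
    have hS : p ∉ S := fun h => hpn (Or.inl h)
    have hsm : s p < g := by
      by_contra hc
      exact hpn (Or.inr ⟨⟨hpP, hS⟩, hc, hpl⟩)
    rcases hij _ hpl with h | h
    · exact Or.inl ⟨⟨⟨hpP, hsm⟩, h⟩, hS⟩
    · exact Or.inr ⟨⟨⟨hpP, hsm⟩, h⟩, hS⟩
  have h2 : ∀ p ∈ (((P.filter (fun p => s p < g)).filter (fun p => lb p = i)) \ S) ∪
        (((P.filter (fun p => s p < g)).filter (fun p => lb p = j)) \ S), 0 ≤ u p := by
    intro p hp
    simp only [Finset.mem_filter, Finset.mem_sdiff, Finset.mem_union] at hp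
    rcases hp with h | h
    · exact hu p h.1.1.1
    · exact hu p h.1.1.1
  refine (Finset.sum_le_sum_of_subset_of_nonneg h1 (fun p hp _ => h2 p hp)).trans ?_
  rw [← Finset.sum_union_inter]
  have h3 : 0 ≤ ∑ p ∈ (((P.filter (fun p => s p < g)).filter (fun p => lb p = i)) \ S) ∩
        (((P.filter (fun p => s p < g)).filter (fun p => lb p = j)) \ S), u p := by
    apply Finset.sum_nonneg
    intro p hp
    exact h2 p (Finset.mem_union_left _ (Finset.mem_inter.mp hp).1)
  linarith

/-- Constructor for structures of type `K`: all big elements are free. -/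
theorem mkK (hu : ∀ p ∈ P, 0 ≤ u p) (hs : ∀ p ∈ P, 0 ≤ s p) (hW : ∑ p ∈ P, s p ≤ 1)
    (hg : 0 < g) (hk : 1 ≤ g * ((k : ℝ) + 1)) {σ δ c : ℝ} {S : Finset ℕ} (hS : S ⊆ P)
    {l i j : Fin 3} (hij : ∀ m : Fin 3, m ≠ l → m = i ∨ m = j) (h1 : ∑ p ∈ S, s p ≤ σ)
    (h2 : δ ≤ ∑ p ∈ S.filter (fun p => lb p = l), u p)
    (h3 : ∑ p ∈ ((P.filter (fun p => s p < g)).filter (fun p => lb p = i)) \ S, u p +
      ∑ p ∈ ((P.filter (fun p => s p < g)).filter (fun p => lb p = j)) \ S, u p ≤ c) :
    KS P lb u s σ δ c (k + 1) := by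
  classical
  refine ⟨S, hS, l, h1, h2, (P \ S).filter (fun p => ¬ s p < g ∧ lb p ≠ l),
    Finset.filter_subset _ _, ?_, (rest_le hu hij).trans h3⟩
  apply card_big hs hW hg hk
  intro p hp
  simp only [Finset.mem_filter, Finset.mem_sdiff] at hp ⊢
  exact ⟨hp.1.1, hp.2.1⟩

theorem sdiff_le (hu : ∀ p ∈ P, 0 ≤ u p) {A S : Finset ℕ} (hA : A ⊆ P) :
    ∑ p ∈ A \ S, u p ≤ ∑ p ∈ A, u p :=
  Finset.sum_le_sum_of_subset_of_nonneg Finset.sdiff_subset (fun p hp _ => hu p (hA hp))

/-- Two coarse labels. -/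
theorem case_two (hu : ∀ p ∈ P, 0 ≤ u p) (hs : ∀ p ∈ P, 0 ≤ s p) (hW : ∑ p ∈ P, s p ≤ 1)
    (hg : 0 < g) (hg1 : g ≤ 1 / 1000) (hk : 1 ≤ g * ((k : ℝ) + 1))
    (hm1 : 9 / 10 ≤ ∑ p ∈ P.filter (fun p => lb p = 1), u p)
    (hm2 : 9 / 10 ≤ ∑ p ∈ P.filter (fun p => lb p = 2), u p) {θ θ' c : ℝ} (hθ : 0 < θ)
    (hθ1 : θ ≤ 1 / 10) (hθ' : 2 * θ' ≤ c) (hθθ : θ' ≤ θ) {l i j : Fin 3} (hil : i ≠ l)
    (hjl : j ≠ l) (hij : ∀ m : Fin 3, m ≠ l → m = i ∨ m = j)
    (hci : fm P lb u s g i < θ') (hcj : fm P lb u s g j < θ')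
    (hgap : θ ≤ fm P lb u s g l ∨ fm P lb u s g l < θ') :
    KS P lb u s (2 / 3 - g) (θ / (2 * ((k : ℝ) + 1))) c (k + 1) := by
  classical
  have hsub : ∀ m : Fin 3, (P.filter (fun p => s p < g)).filter (fun p => lb p = m) ⊆ P :=
    fun m => (Finset.filter_subset _ _).trans (Finset.filter_subset _ _)
  rcases hgap with hf | hc
  · obtain ⟨K, hK, h1, h2⟩ := cheap_mod hu hs hW hg hk hθ hf
    apply mkK hu hs hW hg hk (S := K) (hK.trans (hsub l)) hij (h2.trans (by linarith))
    · rw [Finset.filter_true_of_mem (fun p hp => (Finset.mem_filter.mp (hK hp)).2)]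
      exact h1
    · have a1 := sdiff_le hu (hsub i) (S := K)
      have a2 := sdiff_le hu (hsub j) (S := K)
      change _ ≤ fm P lb u s g i at a1
      change _ ≤ fm P lb u s g j at a2
      linarith
  · -- all labels are coarse
    have hall : ∀ m : Fin 3, fm P lb u s g m < θ' := by
      intro m
      by_cases h : m = l
      · rw [h]; exact hc
      · rcases hij m h with rfl | rfl
        · exact hci
        · exact hcj
    have hbig : ∀ m : Fin 3, 9 / 10 ≤ ∑ p ∈ P.filter (fun p => lb p = m), u p →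
        ∃ q ∈ P, lb q = m ∧ θ / (2 * ((k : ℝ) + 1)) ≤ u q := by
      intro m hm
      by_contra hcon
      push Not at hcon
      set B := (P.filter (fun p => ¬ s p < g)).filter (fun p => lb p = m) with hB
      have e1 : ∑ p ∈ P.filter (fun p => lb p = m), u p = fm P lb u s g m + ∑ p ∈ B, u p := by
        unfold fm
        rw [hB, ← Finset.sum_union, ← Finset.filter_union, Finset.filter_union_filter_not_eq]
        rw [Finset.disjoint_left]
        intro p hp hp2
        exact (Finset.mem_filter.mp (Finset.mem_filter.mp hp2).1).2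
          (Finset.mem_filter.mp (Finset.mem_filter.mp hp).1).2
      have e2 : ∑ p ∈ B, u p ≤ B.card • (θ / (2 * ((k : ℝ) + 1))) := by
        apply Finset.sum_le_card_nsmul
        intro p hp
        rw [hB, Finset.mem_filter, Finset.mem_filter] at hp
        exact (hcon p hp.1.1 hp.2).le
      have e3 : (B.card : ℝ) ≤ (k : ℝ) + 1 := by
        have := card_big hs hW hg hk (H := B) (Finset.filter_subset _ _)
        exact_mod_cast this
      rw [nsmul_eq_mul] at e2
      have e4 : (B.card : ℝ) * (θ / (2 * ((k : ℝ) + 1))) ≤ ((k : ℝ) + 1) *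
          (θ / (2 * ((k : ℝ) + 1))) := mul_le_mul_of_nonneg_right e3 (by positivity)
      have e5 : ((k : ℝ) + 1) * (θ / (2 * ((k : ℝ) + 1))) = θ / 2 := by field_simp
      have := hall m
      linarith
    obtain ⟨q1, hq1, hl1, hu1⟩ := hbig 1 hm1
    obtain ⟨q2, hq2, hl2, hu2⟩ := hbig 2 hm2
    have hq12 : q1 ≠ q2 := by
      rintro rfl
      rw [hl1] at hl2
      exact absurd hl2 (by decide)
    have hsum : s q1 + s q2 ≤ 1 := by
      have h1 : ({q1, q2} : Finset ℕ) ⊆ P := by
        intro p hp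
        rw [Finset.mem_insert, Finset.mem_singleton] at hp
        rcases hp with rfl | rfl
        · exact hq1
        · exact hq2
      have h2 := Finset.sum_le_sum_of_subset_of_nonneg h1 (fun p hp _ => hs p hp) (f := s)
      rw [Finset.sum_pair hq12] at h2
      linarith
    obtain ⟨q, hq, m, hlm, hum, hsm⟩ : ∃ q ∈ P, ∃ m : Fin 3, lb q = m ∧
        θ / (2 * ((k : ℝ) + 1)) ≤ u q ∧ s q ≤ 1 / 2 := by
      rcases le_total (s q1) (s q2) with h | h
      · exact ⟨q1, hq1, 1, hl1, hu1, by linarith⟩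
      · exact ⟨q2, hq2, 2, hl2, hu2, by linarith⟩
    obtain ⟨a, b, -, -, -, hab⟩ := exists_other m
    apply mkK hu hs hW hg hk (S := {q}) (Finset.singleton_subset_iff.mpr hq) hab
    · rw [Finset.sum_singleton]
      linarith
    · rw [Finset.filter_true_of_mem (fun p hp => by rw [Finset.mem_singleton.mp hp]; exact hlm),
        Finset.sum_singleton]
      exact hum
    · have a1 := sdiff_le hu (hsub a) (S := {q})
      have a2 := sdiff_le hu (hsub b) (S := {q})
      change _ ≤ fm P lb u s g a at a1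
      change _ ≤ fm P lb u s g b at a2
      have := hall a
      have := hall b
      linarith

/-- One coarse label `m`, two fine labels `i`, `l` with `i` of weight at most one half. -/
theorem case_one (hu : ∀ p ∈ P, 0 ≤ u p) (hs : ∀ p ∈ P, 0 ≤ s p) (hW : ∑ p ∈ P, s p ≤ 1)
    (hg : 0 < g) (hg1 : g ≤ 1 / 1000) (hk : 1 ≤ g * ((k : ℝ) + 1)) {θ θ' c : ℝ} (hθ : 0 < θ)
    (hθ' : 2 * θ' ≤ c) {l i m : Fin 3} (hil : i ≠ l)
    (hij : ∀ a : Fin 3, a ≠ l → a = i ∨ a = m)
    (hcm : fm P lb u s g m < θ') (hfl : θ ≤ fm P lb u s g l)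
    (hwi : ∑ p ∈ P.filter (fun p => lb p = i), s p ≤ 1 / 2) :
    KS P lb u s (2 / 3 - g) (θ / (2 * ((k : ℝ) + 1))) c (k + 1) := by
  classical
  have hsub : ∀ m : Fin 3, (P.filter (fun p => s p < g)).filter (fun p => lb p = m) ⊆ P :=
    fun m => (Finset.filter_subset _ _).trans (Finset.filter_subset _ _)
  obtain ⟨K, hK, h1, h2⟩ := cheap_mod hu hs hW hg hk hθ hfl
  have hd : Disjoint (P.filter (fun p => lb p = i)) K := by
    rw [Finset.disjoint_left]
    intro p hp hp2
    have a1 := (Finset.mem_filter.mp hp).2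
    have a2 := (Finset.mem_filter.mp (hK hp2)).2
    exact hil (a1.symm.trans a2)
  apply mkK hu hs hW hg hk (S := P.filter (fun p => lb p = i) ∪ K)
    (Finset.union_subset (Finset.filter_subset _ _) (hK.trans (hsub l))) hij
  · rw [Finset.sum_union hd]
    linarith
  · refine h1.trans (Finset.sum_le_sum_of_subset_of_nonneg ?_ ?_)
    · intro p hp
      rw [Finset.mem_filter]
      exact ⟨Finset.mem_union_right _ hp, (Finset.mem_filter.mp (hK hp)).2⟩
    · intro p hp _
      have := (Finset.mem_filter.mp hp).1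
      rw [Finset.mem_union] at this
      rcases this with h | h
      · exact hu p (Finset.mem_filter.mp h).1
      · exact hu p (hsub l (hK h))
  · have e1 : ((P.filter (fun p => s p < g)).filter (fun p => lb p = i)) \
        (P.filter (fun p => lb p = i) ∪ K) = ∅ := by
      rw [Finset.sdiff_eq_empty_iff_subset]
      intro p hp
      apply Finset.mem_union_left
      rw [Finset.mem_filter, Finset.mem_filter] at hp
      exact Finset.mem_filter.mpr ⟨hp.1.1, hp.2⟩
    rw [e1, Finset.sum_empty]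
    have a1 := sdiff_le hu (hsub m) (S := P.filter (fun p => lb p = i) ∪ K)
    change _ ≤ fm P lb u s g m at a1
    have := fm_nonneg hu m (lb := lb) (s := s) (g := g)
    linarith

/-- All labels are fine: keep the small elements of two labels and a cheap part of the third. -/
theorem case_zero (hu : ∀ p ∈ P, 0 ≤ u p) (hs : ∀ p ∈ P, 0 ≤ s p) (hW : ∑ p ∈ P, s p ≤ 1)
    (hg : 0 < g) (hk : 1 ≤ g * ((k : ℝ) + 1)) {θ c : ℝ} (hθ : 0 < θ)
    (hc : 0 ≤ c) {l i j : Fin 3} (hil : i ≠ l) (hjl : j ≠ l) (hne : i ≠ j)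
    (hij : ∀ a : Fin 3, a ≠ l → a = i ∨ a = j) (hfl : θ ≤ fm P lb u s g l)
    (hw : fw P lb s g i + fw P lb s g j ≤ 2 / 3 - 3 * g) :
    KS P lb u s (2 / 3 - g) (θ / (2 * ((k : ℝ) + 1))) c (k + 1) := by
  classical
  have hsub : ∀ m : Fin 3, (P.filter (fun p => s p < g)).filter (fun p => lb p = m) ⊆ P :=
    fun m => (Finset.filter_subset _ _).trans (Finset.filter_subset _ _)
  obtain ⟨K, hK, h1, h2⟩ := cheap_mod hu hs hW hg hk hθ hfl
  set Ai := (P.filter (fun p => s p < g)).filter (fun p => lb p = i) with hAi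
  set Aj := (P.filter (fun p => s p < g)).filter (fun p => lb p = j) with hAj
  have hd1 : Disjoint Ai Aj := by
    rw [Finset.disjoint_left]
    intro p hp hp2
    exact hne ((Finset.mem_filter.mp hp).2.symm.trans (Finset.mem_filter.mp hp2).2)
  have hd2 : Disjoint (Ai ∪ Aj) K := by
    rw [Finset.disjoint_left]
    intro p hp hp2
    have a2 := (Finset.mem_filter.mp (hK hp2)).2
    rcases Finset.mem_union.mp hp with h | h
    · exact hil ((Finset.mem_filter.mp h).2.symm.trans a2)
    · exact hjl ((Finset.mem_filter.mp h).2.symm.trans a2)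
  have hSP : (Ai ∪ Aj) ∪ K ⊆ P :=
    Finset.union_subset (Finset.union_subset (hsub i) (hsub j)) (hK.trans (hsub l))
  apply mkK hu hs hW hg hk (S := (Ai ∪ Aj) ∪ K) hSP hij
  · rw [Finset.sum_union hd2, Finset.sum_union hd1]
    change fw P lb s g i + fw P lb s g j + _ ≤ _
    linarith
  · refine h1.trans (Finset.sum_le_sum_of_subset_of_nonneg ?_ ?_)
    · intro p hp
      rw [Finset.mem_filter]
      exact ⟨Finset.mem_union_right _ hp, (Finset.mem_filter.mp (hK hp)).2⟩
    · intro p hp _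
      exact hu p (hSP (Finset.mem_filter.mp hp).1)
  · have e1 : Ai \ ((Ai ∪ Aj) ∪ K) = ∅ := by
      rw [Finset.sdiff_eq_empty_iff_subset]
      intro p hp
      exact Finset.mem_union_left _ (Finset.mem_union_left _ hp)
    have e2 : Aj \ ((Ai ∪ Aj) ∪ K) = ∅ := by
      rw [Finset.sdiff_eq_empty_iff_subset]
      intro p hp
      exact Finset.mem_union_left _ (Finset.mem_union_right _ hp)
    rw [e1, e2, Finset.sum_empty]
    linarith

/-- The covering lemma of type `K`. -/
theorem cover_K (hu : ∀ p ∈ P, 0 ≤ u p) (hs : ∀ p ∈ P, 0 ≤ s p) (hW : ∑ p ∈ P, s p ≤ 1)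
    (hg : 0 < g) (hg1 : g ≤ 1 / 1000) (hk : 1 ≤ g * ((k : ℝ) + 1))
    (hm1 : 9 / 10 ≤ ∑ p ∈ P.filter (fun p => lb p = 1), u p)
    (hm2 : 9 / 10 ≤ ∑ p ∈ P.filter (fun p => lb p = 2), u p) {θ θ' c : ℝ} (hθ : 0 < θ)
    (hθ1 : θ ≤ 1 / 10) (hc : 0 ≤ c) (hθ' : 2 * θ' ≤ c) (hθθ : θ' ≤ θ)
    (hgap : ∀ l : Fin 3, θ ≤ fm P lb u s g l ∨ fm P lb u s g l < θ') :
    KS P lb u s (2 / 3 - g) (θ / (2 * ((k : ℝ) + 1))) c (k + 1) ∨
      ((∀ p ∈ P, s p ≤ 5 * g) ∧ 1 - 5 * g ≤ ∑ p ∈ P, s p) := by
  classical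
  by_cases hA : ∃ l : Fin 3, ∀ m : Fin 3, m ≠ l → fm P lb u s g m < θ'
  · obtain ⟨l, hl⟩ := hA
    obtain ⟨i, j, hil, hjl, -, hij⟩ := exists_other l
    exact Or.inl (case_two hu hs hW hg hg1 hk hm1 hm2 hθ hθ1 hθ' hθθ hil hjl hij (hl i hil)
      (hl j hjl) (hgap l))
  · push Not at hA
    by_cases hB : ∃ m : Fin 3, fm P lb u s g m < θ'
    · obtain ⟨m, hm⟩ := hB
      obtain ⟨i, j, him, hjm, hne, hij⟩ := exists_other m
      left
      have hfi : θ ≤ fm P lb u s g i := by
        rcases hgap i with h | h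
        · exact h
        · exfalso
          obtain ⟨a, ha1, ha2⟩ := hA j
          by_cases hma : a = m
          · rw [hma] at ha2
            linarith
          · rcases hij a hma with h3 | h3
            · rw [h3] at ha2
              linarith
            · exact ha1 h3
      have hfj : θ ≤ fm P lb u s g j := by
        rcases hgap j with h | h
        · exact h
        · exfalso
          obtain ⟨a, ha1, ha2⟩ := hA i
          by_cases hma : a = m
          · rw [hma] at ha2
            linarith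
          · rcases hij a hma with h3 | h3
            · exact ha1 h3
            · rw [h3] at ha2
              linarith
      have hsum : ∑ p ∈ P.filter (fun p => lb p = i), s p +
          ∑ p ∈ P.filter (fun p => lb p = j), s p ≤ 1 := by
        rw [← Finset.sum_union]
        · refine (Finset.sum_le_sum_of_subset_of_nonneg ?_ (fun p hp _ => hs p hp)).trans hW
          exact Finset.union_subset (Finset.filter_subset _ _) (Finset.filter_subset _ _)
        · rw [Finset.disjoint_left]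
          intro p hp hp2
          exact hne ((Finset.mem_filter.mp hp).2.symm.trans (Finset.mem_filter.mp hp2).2)
      rcases le_total (∑ p ∈ P.filter (fun p => lb p = i), s p) (1 / 2) with h | h
      · refine case_one hu hs hW hg hg1 hk hθ hθ' (l := j) (i := i) (m := m) hne ?_ hm hfj h
        intro a ha
        by_cases hma : a = m
        · exact Or.inr hma
        · rcases hij a hma with h3 | h3
          · exact Or.inl h3
          · exact absurd h3 ha
      · refine case_one hu hs hW hg hg1 hk hθ hθ' (l := i) (i := j) (m := m) hne.symm ?_ hm hfi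
          (by linarith)
        intro a ha
        by_cases hma : a = m
        · exact Or.inr hma
        · rcases hij a hma with h3 | h3
          · exact absurd h3 ha
          · exact Or.inl h3
    · push Not at hB
      have hfine : ∀ l : Fin 3, θ ≤ fm P lb u s g l := by
        intro l
        rcases hgap l with h | h
        · exact h
        · linarith [hB l]
      by_cases hD : (fw P lb s g 1 + fw P lb s g 2 ≤ 2 / 3 - 3 * g) ∨
          (fw P lb s g 0 + fw P lb s g 2 ≤ 2 / 3 - 3 * g) ∨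
          (fw P lb s g 0 + fw P lb s g 1 ≤ 2 / 3 - 3 * g)
      · left
        rcases hD with h | h | h
        · exact case_zero hu hs hW hg hk hθ hc (l := 0) (i := 1) (j := 2) (by decide) (by decide)
            (by decide) (by decide) (hfine 0) h
        · exact case_zero hu hs hW hg hk hθ hc (l := 1) (i := 0) (j := 2) (by decide) (by decide)
            (by decide) (by decide) (hfine 1) h
        · exact case_zero hu hs hW hg hk hθ hc (l := 2) (i := 0) (j := 1) (by decide) (by decide)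
            (by decide) (by decide) (hfine 2) h
      · right
        push Not at hD
        obtain ⟨h0, h1, h2⟩ := hD
        have hFW : fw P lb s g 0 + fw P lb s g 1 + fw P lb s g 2 =
            ∑ p ∈ P.filter (fun p => s p < g), s p := by
          have := Finset.sum_fiberwise (P.filter (fun p => s p < g)) lb s
          rw [Fin.sum_univ_three] at this
          exact this
        have hsplit : ∑ p ∈ P.filter (fun p => s p < g), s p +
            ∑ p ∈ P.filter (fun p => ¬ s p < g), s p = ∑ p ∈ P, s p :=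
          Finset.sum_filter_add_sum_filter_not _ _ _
        have hb0 : 0 ≤ ∑ p ∈ P.filter (fun p => ¬ s p < g), s p :=
          Finset.sum_nonneg (fun p hp => hs p (Finset.mem_filter.mp hp).1)
        refine ⟨?_, by linarith⟩
        intro p hp
        by_cases hpg : s p < g
        · linarith
        · have h3 : s p ≤ ∑ p ∈ P.filter (fun p => ¬ s p < g), s p :=
            Finset.single_le_sum (f := s)
              (fun q hq => hs q (Finset.mem_filter.mp hq).1) (Finset.mem_filter.mpr ⟨hp, hpg⟩)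
          linarith

end

end Pool.Agent.Lib.Pabc12
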