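import Mathlib
import Pool.Agent.Lib.Pabc8.CoverR
import Pool.Agent.Lib.Pabc12.CoverK

/-!
# Tall triples: a power saving over `n ^ (2 / 3)`

`tall_of` deduces the bound for the triples with `log c ≥ K log n` from the count of the
structures of type `K` (`RootKStmt`), the count of nearly proportional exponents (`NearStmt`) and
the count of light triples (`Pabc1.count_lightS`).
-/

open Finset Filter Topology

namespace Pool.Agent.Lib.Pabc12

open Pool.Agent.Lib.Pabc2 Pool.Agent.Lib.Pabc1 Pool.Agent.Lib.Pabc8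

/-- The statement of the count of the structures of type `K`. -/
def RootKStmt (A : ℝ) : Prop :=
  ∀ (d σ η : ℝ) (k : ℕ), 0 < d → d ≤ 1 → 0 ≤ σ → 0 < η → ∃ c : ℝ, 0 < c ∧ ∃ K : ℝ,
    ∀ᶠ n : ℕ in atTop, ∀ T : Finset (ℕ × ℕ),
      (∀ t ∈ T, IsT t ∧ rd t ≤ n ∧ K * Real.log n ≤ ht t ∧ ht t ≤ (n : ℝ) ^ A ∧
        ∃ S ⊆ (N t).primeFactors, ∃ l : Fin 3, ((∏ p ∈ S, p : ℕ) : ℝ) ≤ (n : ℝ) ^ σ ∧
          d ≤ ∑ p ∈ S.filter (fun p => lab t p = l), u t p ∧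
          ∃ H ⊆ (N t).primeFactors \ S, H.card ≤ k ∧
            ∑ p ∈ ((N t).primeFactors \ (S ∪ H)).filter (fun p => lab t p ≠ l), u t p ≤ c) →
      (T.card : ℝ) ≤ (n : ℝ) ^ (σ + η)

/-- The statement of the count of nearly proportional exponents. -/
def NearStmt (A : ℝ) : Prop :=
  ∀ (d ε σ : ℝ), 0 < d → d ≤ 1 → 0 < ε → 0 ≤ σ → ∃ τ : ℝ, 0 < τ ∧ ∃ K : ℝ,
    ∀ᶠ n : ℕ in atTop, ∀ T : Finset (ℕ × ℕ),
      (∀ t ∈ T, IsT t ∧ rd t ≤ n ∧ K * Real.log n ≤ ht t ∧ ht t ≤ (n : ℝ) ^ A ∧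
        ∃ S ⊆ (N t).primeFactors, ∃ l : Fin 3, (∀ p ∈ S, lab t p = l) ∧
          ((∏ p ∈ S, p : ℕ) : ℝ) ≤ (n : ℝ) ^ σ ∧ d ≤ ∑ p ∈ S, u t p ∧
          ∑ p ∈ (N t).primeFactors.filter (fun p => lab t p ≠ l),
            |u t p - 3 * (Real.log p / Real.log n)| ≤ τ) →
      (T.card : ℝ) ≤ (n : ℝ) ^ (2 * σ + ε)

/-- The gap in the scales. -/
theorem exists_gap (θ : ℕ → ℝ) (hθ : Antitone θ) (f : Fin 3 → ℝ) :
    ∃ j < 4, ∀ l : Fin 3, θ j ≤ f l ∨ f l < θ (j + 1) := by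
  by_contra hcon
  push Not at hcon
  have h : ∀ j : Fin 4, ∃ l : Fin 3, f l < θ j ∧ θ ((j : ℕ) + 1) ≤ f l := fun j => hcon j j.2
  choose l hl1 hl2 using h
  have hinj : ∀ i j : Fin 4, i < j → l i ≠ l j := by
    intro i j hij he
    have h1 := hl2 i
    have h2 := hl1 j
    rw [he] at h1
    have h3 : θ j ≤ θ ((i : ℕ) + 1) := hθ (by
      have : (i : ℕ) < j := hij
      omega)
    linarith
  have hni : Function.Injective l := by
    intro i j he
    rcases lt_trichotomy i j with h | h | h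
    · exact absurd he (hinj i j h)
    · exact h
    · exact absurd he.symm (hinj j i h)
  have := Fintype.card_le_of_injective l hni
  simp at this

theorem sum_div_log (S : Finset ℕ) (x : ℝ) :
    ∑ p ∈ S, Real.log (p : ℝ) / x = (∑ p ∈ S, Real.log (p : ℝ)) / x := by
  rw [Finset.sum_div]

theorem prod_le_of_weight {S : Finset ℕ} (hS : ∀ p ∈ S, p.Prime) {n : ℕ} (hn : 1 ≤ n)
    (hx : 0 < Real.log n) {σ : ℝ} (h : ∑ p ∈ S, Real.log (p : ℝ) / Real.log n ≤ σ) :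
    ((∏ p ∈ S, p : ℕ) : ℝ) ≤ (n : ℝ) ^ σ := by
  have hn0 : (0 : ℝ) < n := by exact_mod_cast hn
  have hp : (0 : ℝ) < ((∏ p ∈ S, p : ℕ) : ℝ) := by
    exact_mod_cast Finset.prod_pos (fun p hp => (hS p hp).pos)
  rw [sum_div_log, div_le_iff₀ hx] at h
  rw [← Real.log_le_log_iff hp (Real.rpow_pos_of_pos hn0 σ), Real.log_rpow hn0]
  push_cast
  rw [Real.log_prod]
  · exact h
  · intro p hp
    exact_mod_cast (hS p hp).ne_zero

/-- The bound for tall triples. -/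
theorem tall_of (A : ℝ) (hA : 0 ≤ A) (hRK : RootKStmt A) (hNear : NearStmt A) :
    ∃ K κ : ℝ, 0 < κ ∧ ∀ᶠ n : ℕ in atTop, ∀ T : Finset (ℕ × ℕ),
      (∀ t ∈ T, IsT t ∧ rd t ≤ n ∧ K * Real.log n ≤ ht t ∧ ht t ≤ (n : ℝ) ^ A) →
      (T.card : ℝ) ≤ (n : ℝ) ^ (2 / 3 - κ) := by
  classical
  obtain ⟨τ, hτ, KN, hN⟩ := hNear (1 / 20) (1 / 20) (1 / 4) (by norm_num) (by norm_num)
    (by norm_num) (by norm_num)
  obtain ⟨g, hgdef⟩ : ∃ g : ℝ, g = min (τ / 1000) (1 / 1000) := ⟨_, rfl⟩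
  have hg0 : 0 < g := by
    rw [hgdef]
    exact lt_min (by positivity) (by norm_num)
  have hg1 : g ≤ 1 / 1000 := by
    rw [hgdef]
    exact min_le_right _ _
  have hgτ : 1000 * g ≤ τ := by
    have : g ≤ τ / 1000 := by
      rw [hgdef]
      exact min_le_left _ _
    linarith
  obtain ⟨k, hkdef⟩ : ∃ k : ℕ, k = ⌈1 / g⌉₊ := ⟨_, rfl⟩
  have hk : 1 ≤ g * ((k : ℝ) + 1) := by
    have h1 : 1 / g ≤ k := by
      rw [hkdef]
      exact Nat.le_ceil _
    rw [div_le_iff₀ hg0] at h1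
    nlinarith
  have hk0 : (0 : ℝ) < (k : ℝ) + 1 := by positivity
  -- the constants of the structures of type `K`
  have hex : ∀ θ : ℝ, 0 < θ → θ ≤ 1 → ∃ c : ℝ, 0 < c ∧ ∃ K : ℝ,
    ∀ᶠ n : ℕ in atTop, ∀ T : Finset (ℕ × ℕ),
      (∀ t ∈ T, IsT t ∧ rd t ≤ n ∧ K * Real.log n ≤ ht t ∧ ht t ≤ (n : ℝ) ^ A ∧
        ∃ S ⊆ (N t).primeFactors, ∃ l : Fin 3, ((∏ p ∈ S, p : ℕ) : ℝ) ≤ (n : ℝ) ^ (2 / 3 - g) ∧
          θ / (2 * ((k : ℝ) + 1)) ≤ ∑ p ∈ S.filter (fun p => lab t p = l), u t p ∧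
          ∃ H ⊆ (N t).primeFactors \ S, H.card ≤ k + 1 ∧
            ∑ p ∈ ((N t).primeFactors \ (S ∪ H)).filter (fun p => lab t p ≠ l), u t p ≤ c) →
      (T.card : ℝ) ≤ (n : ℝ) ^ (2 / 3 - g + g / 2) := by
    intro θ hθ hθ1
    apply hRK
    · positivity
    · rw [div_le_one (by positivity)]
      have : (0 : ℝ) ≤ k := Nat.cast_nonneg k
      linarith
    · linarith
    · positivity
  choose! cf hcf Kf hKf using hex
  -- the scales
  obtain ⟨θ, hθ0, hθs⟩ : ∃ θ : ℕ → ℝ, θ 0 = 1 / 10 ∧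
      ∀ j, θ (j + 1) = min (θ j) (cf (θ j) / 2) :=
    ⟨fun j => Nat.rec (1 / 10) (fun _ x => min x (cf x / 2)) j, rfl, fun _ => rfl⟩
  have hanti : Antitone θ := antitone_nat_of_succ_le (fun j => by
    rw [hθs]
    exact min_le_left _ _)
  have hθle : ∀ j, θ j ≤ 1 / 10 := fun j => by
    rw [← hθ0]
    exact hanti (Nat.zero_le j)
  have hθpos : ∀ j, 0 < θ j := by
    intro j
    induction j with
    | zero => rw [hθ0]; norm_num
    | succ j ih =>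
      rw [hθs]
      have := hcf (θ j) ih ((hθle j).trans (by norm_num))
      exact lt_min ih (by linarith)
  have hlight := count_lightS g A (2 / 3 - g) (g / 2) hg0 (by linarith) hA (by linarith)
  have hall : ∀ᶠ n : ℕ in atTop, ∀ j ∈ Finset.range 4, ∀ T : Finset (ℕ × ℕ),
      (∀ t ∈ T, IsT t ∧ rd t ≤ n ∧ Kf (θ j) * Real.log n ≤ ht t ∧ ht t ≤ (n : ℝ) ^ A ∧
        ∃ S ⊆ (N t).primeFactors, ∃ l : Fin 3, ((∏ p ∈ S, p : ℕ) : ℝ) ≤ (n : ℝ) ^ (2 / 3 - g) ∧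
          θ j / (2 * ((k : ℝ) + 1)) ≤ ∑ p ∈ S.filter (fun p => lab t p = l), u t p ∧
          ∃ H ⊆ (N t).primeFactors \ S, H.card ≤ k + 1 ∧
            ∑ p ∈ ((N t).primeFactors \ (S ∪ H)).filter (fun p => lab t p ≠ l), u t p ≤
              cf (θ j)) →
      (T.card : ℝ) ≤ (n : ℝ) ^ (2 / 3 - g + g / 2) := by
    rw [Filter.eventually_all_finset]
    intro j _
    exact hKf (θ j) (hθpos j) ((hθle j).trans (by norm_num))
  obtain ⟨K, hK⟩ : ∃ K : ℝ, K = |KN| + (∑ j ∈ Finset.range 4, |Kf (θ j)|) + 2 / g + 200 :=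
    ⟨_, rfl⟩
  have hsum0 : 0 ≤ ∑ j ∈ Finset.range 4, |Kf (θ j)| := Finset.sum_nonneg fun _ _ => abs_nonneg _
  have hKN : KN ≤ K := by
    have h1 := le_abs_self KN
    have h3 : 0 < 2 / g := by positivity
    rw [hK]
    linarith
  have hKg : 2 / g ≤ K := by
    have h1 := abs_nonneg KN
    rw [hK]
    linarith
  have hK200 : 200 ≤ K := by
    have h1 := abs_nonneg KN
    have h3 : 0 < 2 / g := by positivity
    rw [hK]
    linarith
  have hKj : ∀ j ∈ Finset.range 4, Kf (θ j) ≤ K := by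
    intro j hj
    have h1 := abs_nonneg KN
    have h2 : |Kf (θ j)| ≤ ∑ j ∈ Finset.range 4, |Kf (θ j)| :=
      Finset.single_le_sum (f := fun j => |Kf (θ j)|) (fun _ _ => abs_nonneg _) hj
    have h3 : 0 < 2 / g := by positivity
    have h4 := le_abs_self (Kf (θ j))
    rw [hK]
    linarith
  refine ⟨K, g / 4, by positivity, ?_⟩
  have hlim : Tendsto (fun n : ℕ => Real.log (n : ℝ)) atTop atTop :=
    Real.tendsto_log_atTop.comp tendsto_natCast_atTop_atTop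
  filter_upwards [hN, hlight, hall, hlim.eventually (eventually_ge_atTop 1),
    ev_log_pow_le 6 0 (g / 4) (by positivity), eventually_ge_atTop 1] with n h1 h2 h3 hx1 h6 hn1
    T hT
  rw [Real.rpow_zero, mul_one] at h6
  set x := Real.log (n : ℝ) with hx
  have hx0 : 0 < x := by linarith
  have hn0 : (0 : ℝ) < n := by exact_mod_cast hn1
  have hn1' : (1 : ℝ) ≤ n := by exact_mod_cast hn1
  -- the classes
  set T1 := T.filter (fun t => ∃ S ⊆ (N t).primeFactors, ((∏ p ∈ S, p : ℕ) : ℝ) ≤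
    (n : ℝ) ^ (2 / 3 - g) ∧ ∑ p ∈ (N t).primeFactors \ S, u t p ≤ 1 - g) with hT1
  set T2 := T.filter (fun t => ∃ S ⊆ (N t).primeFactors, ∃ l : Fin 3,
    (∀ p ∈ S, lab t p = l) ∧ ((∏ p ∈ S, p : ℕ) : ℝ) ≤ (n : ℝ) ^ (1 / 4 : ℝ) ∧
    1 / 20 ≤ ∑ p ∈ S, u t p ∧
    ∑ p ∈ (N t).primeFactors.filter (fun p => lab t p ≠ l),
      |u t p - 3 * (Real.log p / x)| ≤ τ) with hT2
  set TK : ℕ → Finset (ℕ × ℕ) := fun j => T.filter (fun t => ∃ S ⊆ (N t).primeFactors,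
    ∃ l : Fin 3, ((∏ p ∈ S, p : ℕ) : ℝ) ≤ (n : ℝ) ^ (2 / 3 - g) ∧
      θ j / (2 * ((k : ℝ) + 1)) ≤ ∑ p ∈ S.filter (fun p => lab t p = l), u t p ∧
      ∃ H ⊆ (N t).primeFactors \ S, H.card ≤ k + 1 ∧
        ∑ p ∈ ((N t).primeFactors \ (S ∪ H)).filter (fun p => lab t p ≠ l), u t p ≤
          cf (θ j)) with hTK
  have hcover : T ⊆ (T1 ∪ T2) ∪ (Finset.range 4).biUnion TK := by
    intro t ht'
    obtain ⟨hI, hrd, hKt, hht⟩ := hT t ht'
    have hprime : ∀ p ∈ (N t).primeFactors, p.Prime := fun p hp =>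
      Nat.prime_of_mem_primeFactors hp
    have hbig : 200 ≤ ht t := by nlinarith
    set P := (N t).primeFactors with hP
    obtain ⟨s, hs⟩ : ∃ s : ℕ → ℝ, s = fun p : ℕ => Real.log (p : ℝ) / x := ⟨_, rfl⟩
    have hu0 : ∀ p ∈ P, 0 ≤ u t p := fun p _ => u_nonneg hI p
    have hs0 : ∀ p ∈ P, 0 ≤ s p := fun p _ => by
      rw [hs]
      exact div_nonneg (Real.log_natCast_nonneg p) hx0.le
    have hW : ∑ p ∈ P, s p ≤ 1 := by
      rw [hs]
      simp only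
      rw [sum_div_log, div_le_one hx0]
      have h7 : Real.log ((∏ p ∈ P, p : ℕ) : ℝ) = ∑ p ∈ P, Real.log (p : ℝ) := by
        push_cast
        exact Real.log_prod (fun p hp => by exact_mod_cast (hprime p hp).ne_zero)
      rw [← h7, hx]
      apply Real.log_le_log
      · exact_mod_cast Finset.prod_pos (fun p hp => (hprime p hp).pos)
      · exact_mod_cast hrd
    have hm1 : 9 / 10 ≤ ∑ p ∈ P.filter (fun p => lab t p = 1), u t p := ms_ge hI hbig (by decide)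
    have hm2 : 9 / 10 ≤ ∑ p ∈ P.filter (fun p => lab t p = 2), u t p := ms_ge hI hbig (by decide)
    obtain ⟨j, hj4, hgap⟩ := exists_gap θ hanti (fm P (lab t) (u t) s g)
    have hc0 := hcf (θ j) (hθpos j) ((hθle j).trans (by norm_num))
    have hprodS : ∀ {S : Finset ℕ} {σ : ℝ}, S ⊆ P → ∑ p ∈ S, s p ≤ σ →
        ((∏ p ∈ S, p : ℕ) : ℝ) ≤ (n : ℝ) ^ σ := by
      intro S σ hS h
      rw [hs] at h
      exact prod_le_of_weight (fun p hp => hprime p (hS hp)) hn1 hx0 h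
    rw [Finset.mem_union, Finset.mem_union]
    rcases cover_K (k := k) hu0 hs0 hW hg0 hg1 hk hm1 hm2 (θ := θ j) (θ' := θ (j + 1))
      (c := cf (θ j)) (hθpos j) (hθle j) hc0.le (by
        rw [hθs]
        have := min_le_right (θ j) (cf (θ j) / 2)
        linarith) (hanti (Nat.le_succ j)) hgap with hKS | ⟨hsm, hW1⟩
    · right
      rw [Finset.mem_biUnion]
      obtain ⟨S, hS, l, a1, a2, H, a3, a4, a5⟩ := hKS
      refine ⟨j, Finset.mem_range.mpr hj4, ?_⟩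
      rw [hTK, Finset.mem_filter]
      exact ⟨ht', S, hS, l, hprodS hS a1, a2, H, a3, a4, a5⟩
    · left
      have hU : ∑ p ∈ P, u t p ≤ 3 := sum_u_le hI (Finset.Subset.refl _)
      rcases cover_T hg0 hg1 hgτ hu0 (fun p hp => ⟨hs0 p hp, hsm p hp⟩) hU hW hW1 with
        ⟨S, hS, a1, a2⟩ | hnear
      · left
        rw [hT1, Finset.mem_filter]
        exact ⟨ht', S, hS, hprodS hS a1, a2⟩
      · right
        rw [hT2, Finset.mem_filter]
        refine ⟨ht', ?_⟩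
        obtain ⟨r, hr, S, hS, a1, a2⟩ := Pabc6.cheap (δ := 1 / 20) (by norm_num) (u t) s 4
          (P.filter (fun p => lab t p = 2)) (fun p hp => hu0 p (Finset.mem_filter.mp hp).1)
          (fun p hp => hs0 p (Finset.mem_filter.mp hp).1) (by norm_num; linarith)
        have hSP : S ⊆ P := hS.trans (Finset.filter_subset _ _)
        have hsr : s r ≤ 5 * g := hsm r (Finset.mem_filter.mp hr).1
        have hs2 : ∑ p ∈ P.filter (fun p => lab t p = 2), s p ≤ 1 :=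
          (Finset.sum_le_sum_of_subset_of_nonneg (Finset.filter_subset _ _)
            (fun p hp _ => hs0 p hp)).trans hW
        norm_num at a2
        refine ⟨S, hSP, 2, fun p hp => (Finset.mem_filter.mp (hS hp)).2,
          hprodS hSP (by linarith), a1, ?_⟩
        refine (Finset.sum_le_sum_of_subset_of_nonneg (Finset.filter_subset _ _)
          (fun p _ _ => abs_nonneg _)).trans ?_
        rw [hs] at hnear
        exact hnear
  have hmono : ∀ a : ℝ, a ≤ 2 / 3 - g / 2 → (n : ℝ) ^ a ≤ (n : ℝ) ^ (2 / 3 - g / 2) :=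
    fun a ha => Real.rpow_le_rpow_of_exponent_le hn1' ha
  have hb1 : (T1.card : ℝ) ≤ (n : ℝ) ^ (2 / 3 - g / 2) := by
    refine (h2 T1 (fun t ht' => ?_)).trans (hmono _ (by linarith))
    rw [hT1, Finset.mem_filter] at ht'
    obtain ⟨hI, hrd, hKt, hht⟩ := hT t ht'.1
    exact ⟨hI, hrd, hht, by nlinarith, ht'.2⟩
  have hb2 : (T2.card : ℝ) ≤ (n : ℝ) ^ (2 / 3 - g / 2) := by
    refine (h1 T2 (fun t ht' => ?_)).trans (hmono _ (by linarith))
    rw [hT2, Finset.mem_filter] at ht'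
    obtain ⟨hI, hrd, hKt, hht⟩ := hT t ht'.1
    exact ⟨hI, hrd, (mul_le_mul_of_nonneg_right hKN hx0.le).trans hKt, hht, ht'.2⟩
  have hb3 : ∀ j ∈ Finset.range 4, ((TK j).card : ℝ) ≤ (n : ℝ) ^ (2 / 3 - g / 2) := by
    intro j hj
    refine (h3 j hj (TK j) (fun t ht' => ?_)).trans (hmono _ (by linarith))
    rw [hTK, Finset.mem_filter] at ht'
    obtain ⟨hI, hrd, hKt, hht⟩ := hT t ht'.1
    exact ⟨hI, hrd, (mul_le_mul_of_nonneg_right (hKj j hj) hx0.le).trans hKt, hht, ht'.2⟩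
  have hcard : (T.card : ℝ) ≤ (T1.card + T2.card) + ∑ j ∈ Finset.range 4, ((TK j).card : ℝ) := by
    have e1 := Finset.card_le_card hcover
    have e2 := Finset.card_union_le (T1 ∪ T2) ((Finset.range 4).biUnion TK)
    have e3 := Finset.card_union_le T1 T2
    have e4 := Finset.card_biUnion_le (s := Finset.range 4) (t := TK)
    have e5 : T.card ≤ (T1.card + T2.card) + ∑ j ∈ Finset.range 4, (TK j).card := by omega
    exact_mod_cast e5
  have hsumb : ∑ j ∈ Finset.range 4, ((TK j).card : ℝ) ≤ 4 * (n : ℝ) ^ (2 / 3 - g / 2) := by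
    refine (Finset.sum_le_sum hb3).trans ?_
    rw [Finset.sum_const, Finset.card_range, nsmul_eq_mul]
    norm_num
  have hE0 : 0 ≤ (n : ℝ) ^ (2 / 3 - g / 2) := by positivity
  have hsplit : (n : ℝ) ^ (2 / 3 - g / 4) = (n : ℝ) ^ (2 / 3 - g / 2) * (n : ℝ) ^ (g / 4) := by
    rw [← Real.rpow_add hn0]
    congr 1
    ring
  rw [hsplit]
  calc (T.card : ℝ) ≤ (n : ℝ) ^ (2 / 3 - g / 2) * 6 := by linarith
    _ ≤ _ := mul_le_mul_of_nonneg_left h6 hE0

end Pool.Agent.Lib.Pabc12
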