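import Mathlib
import Pool.Agent.Lib.Pabc12.Tall
import Pool.Agent.Lib.Pabc6.Main

/-!
# From a fixed set `S` to all sets `S` (structures of type `K`)
-/

open Finset Filter Topology

namespace Pool.Agent.Lib.Pabc12

open Pool.Agent.Lib.Pabc2 Pool.Agent.Lib.Pabc1

/-- The count of the structures of type `K` for a fixed set `S` and a fixed label. -/
def FibreKStmt (A : ℝ) : Prop :=
  ∀ (d η : ℝ) (k : ℕ), 0 < d → d ≤ 1 → 0 < η → ∃ c : ℝ, 0 < c ∧ ∃ K : ℝ,
    ∀ᶠ n : ℕ in atTop, ∀ (S : Finset ℕ) (l : Fin 3) (T : Finset (ℕ × ℕ)),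
      (∀ t ∈ T, IsT t ∧ rd t ≤ n ∧ K * Real.log n ≤ ht t ∧ ht t ≤ (n : ℝ) ^ A ∧
        S ⊆ (N t).primeFactors ∧ d ≤ ∑ p ∈ S.filter (fun p => lab t p = l), u t p ∧
        ∃ H ⊆ (N t).primeFactors \ S, H.card ≤ k ∧
          ∑ p ∈ ((N t).primeFactors \ (S ∪ H)).filter (fun p => lab t p ≠ l), u t p ≤ c) →
      (T.card : ℝ) ≤ (n : ℝ) ^ η

/-- The product is injective on sets of primes. -/
theorem prod_injOn_primes {S S' : Finset ℕ} (hS : ∀ p ∈ S, p.Prime) (hS' : ∀ p ∈ S', p.Prime)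
    (h : ∏ p ∈ S, p = ∏ p ∈ S', p) : S = S' := by
  rw [← Nat.primeFactors_prod hS, h, Nat.primeFactors_prod hS']

theorem rootK_of_fibre (A : ℝ) (h : FibreKStmt A) : RootKStmt A := by
  classical
  intro d σ η k hd hd1 hσ hη
  obtain ⟨c, hc, K, hK⟩ := h d (η / 2) k hd hd1 (by positivity)
  refine ⟨c, hc, K, ?_⟩
  filter_upwards [hK, ev_log_pow_le 6 0 (η / 2) (by positivity), eventually_ge_atTop 1] with
    n h1 h6 hn1 T hT
  rw [Real.rpow_zero, mul_one] at h6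
  have hn0 : (0 : ℝ) < n := by exact_mod_cast hn1
  have hn1' : (1 : ℝ) ≤ n := by exact_mod_cast hn1
  choose! S hS l hSz hSu H hHs hHc hHu using fun t (ht' : t ∈ T) => (hT t ht').2.2.2.2
  set X := ⌊(n : ℝ) ^ σ⌋₊ with hX
  set f : ℕ × ℕ → ℕ × Fin 3 := fun t => (∏ p ∈ S t, p, l t) with hf
  have hmaps : ∀ t ∈ T, f t ∈ Finset.Icc 1 X ×ˢ (Finset.univ : Finset (Fin 3)) := by
    intro t ht'
    rw [hf, Finset.mem_product, Finset.mem_Icc]
    refine ⟨⟨?_, ?_⟩, Finset.mem_univ _⟩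
    · exact Finset.prod_pos (fun p hp => (Nat.prime_of_mem_primeFactors (hS t ht' hp)).pos)
    · rw [hX]
      exact Nat.le_floor (hSz t ht')
  have hfib : ∀ y ∈ Finset.Icc 1 X ×ˢ (Finset.univ : Finset (Fin 3)),
      (((T.filter (fun t => f t = y)).card : ℕ) : ℝ) ≤ (n : ℝ) ^ (η / 2) := by
    intro y _
    rcases (T.filter (fun t => f t = y)).eq_empty_or_nonempty with he | ⟨t0, ht0⟩
    · rw [he]
      simp only [Finset.card_empty, Nat.cast_zero]
      positivity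
    · rw [Finset.mem_filter] at ht0
      apply h1 (S t0) (l t0)
      intro t ht'
      rw [Finset.mem_filter] at ht'
      have e1 := ht'.2.trans ht0.2.symm
      rw [hf] at e1
      simp only [Prod.mk.injEq] at e1
      have e2 : S t = S t0 := prod_injOn_primes
        (fun p hp => Nat.prime_of_mem_primeFactors (hS t ht'.1 hp))
        (fun p hp => Nat.prime_of_mem_primeFactors (hS t0 ht0.1 hp)) e1.1
      obtain ⟨b1, b2, b3, b4, -⟩ := hT t ht'.1
      rw [← e2, ← e1.2]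
      exact ⟨b1, b2, b3, b4, hS t ht'.1, hSu t ht'.1, H t, hHs t ht'.1, hHc t ht'.1,
        hHu t ht'.1⟩
  rw [Finset.card_eq_sum_card_fiberwise (f := f) hmaps]
  push_cast
  refine (Finset.sum_le_sum hfib).trans ?_
  rw [Finset.sum_const, Finset.card_product, Nat.card_Icc, Finset.card_univ, Fintype.card_fin,
    nsmul_eq_mul, Nat.add_sub_cancel]
  push_cast
  have hXle : (X : ℝ) ≤ (n : ℝ) ^ σ := Nat.floor_le (by positivity)
  have hE : 0 ≤ (n : ℝ) ^ (η / 2) := by positivity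
  have hE2 : 0 ≤ (n : ℝ) ^ σ := by positivity
  calc (X : ℝ) * 3 * (n : ℝ) ^ (η / 2) ≤ (n : ℝ) ^ σ * 6 * (n : ℝ) ^ (η / 2) := by
        apply mul_le_mul_of_nonneg_right _ hE
        nlinarith
    _ ≤ (n : ℝ) ^ σ * (n : ℝ) ^ (η / 2) * (n : ℝ) ^ (η / 2) := by
        apply mul_le_mul_of_nonneg_right _ hE
        exact mul_le_mul_of_nonneg_left h6 hE2
    _ = (n : ℝ) ^ (σ + η) := by
        rw [← Real.rpow_add hn0, ← Real.rpow_add hn0]
        congr 1
        ring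

end Pool.Agent.Lib.Pabc12
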