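import Mathlib
import Pool.Agent.Lib.Pabc12.CountK
import Pool.Agent.Lib.AbcF.NearCount

/-!
# Tall triples, with the count of nearly proportional exponents discharged
-/

open Finset Filter Topology

namespace Pool.Agent.Lib.Pabc12

open Pool.Agent.Lib.Pabc2 Pool.Agent.Lib.Pabc1

theorem nearStmt (A : ℝ) (hA : 0 ≤ A) : NearStmt A := by
  intro d ε σ hd hd1 hε hσ
  exact Pool.Agent.AbcF.count_near A hA d ε σ hd hd1 hε hσ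

theorem tall_of_rootK (A : ℝ) (hA : 0 ≤ A) (h : RootKStmt A) :
    ∃ K κ : ℝ, 0 < κ ∧ ∀ᶠ n : ℕ in atTop, ∀ T : Finset (ℕ × ℕ),
      (∀ t ∈ T, IsT t ∧ rd t ≤ n ∧ K * Real.log n ≤ ht t ∧ ht t ≤ (n : ℝ) ^ A) →
      (T.card : ℝ) ≤ (n : ℝ) ^ (2 / 3 - κ) :=
  tall_of A hA h (nearStmt A hA)

theorem tall_of_fibre (A : ℝ) (hA : 0 ≤ A) (h : FibreKStmt A) :
    ∃ K κ : ℝ, 0 < κ ∧ ∀ᶠ n : ℕ in atTop, ∀ T : Finset (ℕ × ℕ),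
      (∀ t ∈ T, IsT t ∧ rd t ≤ n ∧ K * Real.log n ≤ ht t ∧ ht t ≤ (n : ℝ) ^ A) →
      (T.card : ℝ) ≤ (n : ℝ) ^ (2 / 3 - κ) :=
  tall_of_rootK A hA (rootK_of_fibre A h)

end Pool.Agent.Lib.Pabc12
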