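import Mathlib
import Pool.Agent.Lib.Pabc12.Tall2
import Pool.Agent.Lib.Pabcx.MidFinal
import Pool.Agent.Lib.Pabc10.Final
import Pool.Agent.Lib.AbcG.Defs

/-!
# Almost all triples: the abc inequality with exponent `1/3 + e` and a power saving
-/

open Finset Filter Topology

namespace Pool.Agent.Lib.Pabc12

open Pool.Agent.Lib.Pabc2 Pool.Agent.Lib.Pabc1

/-- For every `e > 0` the triples of radical at most `n` with `c > n ^ (1/3+e)` number at most
`n ^ (2/3-κ)`. -/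
def AlmostStmt : Prop :=
  ∀ e : ℝ, 0 < e → ∃ κ : ℝ, 0 < κ ∧ ∀ᶠ n : ℕ in atTop, ∀ T : Finset (ℕ × ℕ),
    (∀ t ∈ T, IsT t ∧ rd t ≤ n ∧ (n : ℝ) ^ (1 / 3 + e) ≤ (t.1 : ℝ) + t.2) →
    (T.card : ℝ) ≤ (n : ℝ) ^ (2 / 3 - κ)

/-- Polynomial heights (from `Pabcx.mid_card_le`). -/
theorem poly_count (e K : ℝ) (he : 0 < e) : ∃ κ : ℝ, 0 < κ ∧ ∀ᶠ n : ℕ in atTop,
    ∀ T : Finset (ℕ × ℕ), (∀ t ∈ T, IsT t ∧ rd t ≤ n ∧
      (n : ℝ) ^ (1 / 3 + e) ≤ (t.1 : ℝ) + t.2 ∧ ht t ≤ K * Real.log n) →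
    (T.card : ℝ) ≤ (n : ℝ) ^ (2 / 3 - κ) := by
  classical
  obtain ⟨κ, hκ, Y0, hY⟩ := Pabcx.mid_card_le e K he
  refine ⟨κ, hκ, ?_⟩
  filter_upwards [tendsto_natCast_atTop_atTop.eventually (eventually_ge_atTop Y0),
    eventually_ge_atTop 1] with n hnY hn1 T hT
  obtain ⟨hfin, hle⟩ := hY n hnY
  have hn0 : (0 : ℝ) < n := by exact_mod_cast hn1
  set f : ℕ × ℕ → ℕ × ℕ × ℕ := fun t => (t.1, t.2, t.1 + t.2) with hf
  have hinj : Function.Injective f := by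
    intro s t h
    rw [hf] at h
    simp only [Prod.mk.injEq] at h
    exact Prod.ext h.1 h.2.1
  have hsub : ((T.image f : Finset (ℕ × ℕ × ℕ)) : Set (ℕ × ℕ × ℕ)) ⊆
      Pabcx.midTriples e K n := by
    intro x hx
    rw [Finset.mem_coe, Finset.mem_image] at hx
    obtain ⟨t, ht', rfl⟩ := hx
    obtain ⟨hI, hrd, hc, hh⟩ := hT t ht'
    have hc0 : (0 : ℝ) < (t.1 : ℝ) + t.2 := by
      have h1 : (0 : ℝ) < t.1 := by exact_mod_cast hI.1
      have h2 : (0 : ℝ) ≤ t.2 := Nat.cast_nonneg _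
      linarith
    have h1 := hI.1
    have h2 := hI.pos2
    have hcop := hI.2.2
    refine ⟨⟨h1, h2, by simp only [hf]; omega, hcop, ?_, ?_, rfl⟩, ?_, ?_, ?_⟩
    · exact (Nat.coprime_self_add_right).mpr hcop
    · exact (Nat.coprime_add_self_right).mpr hcop.symm
    · have : Pabcv.rad (t.1 * t.2 * (t.1 + t.2)) = rd t := rfl
      simp only [hf]
      rw [this]
      exact_mod_cast hrd
    · simp only [hf]
      push_cast
      exact hc
    · simp only [hf]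
      push_cast
      rw [← Real.log_le_log_iff hc0 (by positivity), Real.log_rpow hn0]
      exact hh
  have h1 := Set.ncard_le_ncard hsub hfin
  rw [Set.ncard_coe_finset, Finset.card_image_of_injective _ hinj] at h1
  calc (T.card : ℝ) ≤ ((Pabcx.midTriples e K n).ncard : ℝ) := by exact_mod_cast h1
    _ ≤ _ := hle

theorem almost_of_fibre (hF : FibreKStmt 3) : AlmostStmt := by
  classical
  intro e he
  obtain ⟨K, κ1, hκ1, h1⟩ := tall_of_fibre 3 (by norm_num) hF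
  obtain ⟨κ2, hκ2, h2⟩ := poly_count e K he
  obtain ⟨κ, hκ⟩ : ∃ κ : ℝ, κ = min κ1 κ2 := ⟨_, rfl⟩
  have hκ0 : 0 < κ := by rw [hκ]; exact lt_min hκ1 hκ2
  refine ⟨κ / 2, by positivity, ?_⟩
  filter_upwards [h1, h2, Pabc10.ht_le_cube, ev_log_pow_le 2 0 (κ / 2) (by positivity),
    eventually_ge_atTop 1] with n a1 a2 a3 a4 hn1 T hT
  rw [Real.rpow_zero, mul_one] at a4
  have hn0 : (0 : ℝ) < n := by exact_mod_cast hn1
  have hn1' : (1 : ℝ) ≤ n := by exact_mod_cast hn1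
  have b1 := a1 (T.filter (fun t => K * Real.log n ≤ ht t)) (by
    intro t ht'
    rw [Finset.mem_filter] at ht'
    obtain ⟨hI, hrd, -⟩ := hT t ht'.1
    exact ⟨hI, hrd, ht'.2, a3 t hI hrd⟩)
  have b2 := a2 (T.filter (fun t => ¬ K * Real.log n ≤ ht t)) (by
    intro t ht'
    rw [Finset.mem_filter] at ht'
    obtain ⟨hI, hrd, hc⟩ := hT t ht'.1
    exact ⟨hI, hrd, hc, (not_le.mp ht'.2).le⟩)
  have hcard := Finset.card_filter_add_card_filter_not (s := T) (fun t => K * Real.log n ≤ ht t)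
  have hm1 : (n : ℝ) ^ (2 / 3 - κ1) ≤ (n : ℝ) ^ (2 / 3 - κ) := by
    apply Real.rpow_le_rpow_of_exponent_le hn1'
    have : κ ≤ κ1 := by rw [hκ]; exact min_le_left _ _
    linarith
  have hm2 : (n : ℝ) ^ (2 / 3 - κ2) ≤ (n : ℝ) ^ (2 / 3 - κ) := by
    apply Real.rpow_le_rpow_of_exponent_le hn1'
    have : κ ≤ κ2 := by rw [hκ]; exact min_le_right _ _
    linarith
  have hcard' : (T.card : ℝ) = ((T.filter (fun t => K * Real.log n ≤ ht t)).card : ℝ) +
      ((T.filter (fun t => ¬ K * Real.log n ≤ ht t)).card : ℝ) := by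
    rw [← hcard]
    push_cast
    ring
  have hsplit : (n : ℝ) ^ (2 / 3 - κ / 2) = (n : ℝ) ^ (2 / 3 - κ) * (n : ℝ) ^ (κ / 2) := by
    rw [← Real.rpow_add hn0]
    congr 1
    ring
  rw [hsplit, hcard']
  have hE : 0 ≤ (n : ℝ) ^ (2 / 3 - κ) := by positivity
  calc _ ≤ (n : ℝ) ^ (2 / 3 - κ) * 2 := by linarith
    _ ≤ _ := mul_le_mul_of_nonneg_left a4 hE

/-- The tail hypothesis of the asymptotic formula. -/
theorem tailHyp_of_almost (h : AlmostStmt) : AbcG.TailHyp := by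
  classical
  obtain ⟨κ, hκ, h1⟩ := h (1 / 1000) (by norm_num)
  refine ⟨κ / 2, by positivity, ?_⟩
  filter_upwards [h1, ev_log_pow_le 2 0 (κ / 2) (by positivity), eventually_ge_atTop 1] with
    n a1 a4 hn1 T hT
  rw [Real.rpow_zero, mul_one] at a4
  have hn0 : (0 : ℝ) < n := by exact_mod_cast hn1
  have b1 := a1 (T.filter (fun t => t.1 ≤ t.2)) (by
    intro t ht'
    rw [Finset.mem_filter] at ht'
    obtain ⟨c1, c2, c3, c4, c5⟩ := hT t ht'.1
    exact ⟨⟨c1, ht'.2, c3⟩, c4, c5.le⟩)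
  have b2 := a1 ((T.filter (fun t => ¬ t.1 ≤ t.2)).image Prod.swap) (by
    intro s hs
    rw [Finset.mem_image] at hs
    obtain ⟨t, ht', rfl⟩ := hs
    rw [Finset.mem_filter] at ht'
    obtain ⟨c1, c2, c3, c4, c5⟩ := hT t ht'.1
    refine ⟨⟨c2, (not_le.mp ht'.2).le, c3.symm⟩, ?_, ?_⟩
    · have e1 : N t.swap = AbcG.Nn t := by
        unfold N AbcG.Nn
        simp only [Prod.fst_swap, Prod.snd_swap]
        ring
      unfold rd
      rw [e1]
      exact c4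
    · simp only [Prod.fst_swap, Prod.snd_swap]
      linarith)
  rw [Finset.card_image_of_injective _ Prod.swap_injective] at b2
  have hcard := Finset.card_filter_add_card_filter_not (s := T) (fun t => t.1 ≤ t.2)
  have hcard' : (T.card : ℝ) = ((T.filter (fun t => t.1 ≤ t.2)).card : ℝ) +
      ((T.filter (fun t => ¬ t.1 ≤ t.2)).card : ℝ) := by
    rw [← hcard]
    push_cast
    ring
  have hsplit : (n : ℝ) ^ (2 / 3 - κ / 2) = (n : ℝ) ^ (2 / 3 - κ) * (n : ℝ) ^ (κ / 2) := by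
    rw [← Real.rpow_add hn0]
    congr 1
    ring
  rw [hsplit, hcard']
  have hE : 0 ≤ (n : ℝ) ^ (2 / 3 - κ) := by positivity
  calc _ ≤ (n : ℝ) ^ (2 / 3 - κ) * 2 := by linarith
    _ ≤ _ := mul_le_mul_of_nonneg_left a4 hE

theorem tailHyp_of_fibre (hF : FibreKStmt 3) : AbcG.TailHyp :=
  tailHyp_of_almost (almost_of_fibre hF)

end Pool.Agent.Lib.Pabc12
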