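import Mathlib
import Pool.Agent.Lib.Pabc12.AlmostAll
import Pool.Agent.Lib.Pabc10.FibreK

/-!
# Almost all triples: all hypotheses discharged
-/

open Finset Filter Topology

namespace Pool.Agent.Lib.Pabc12

open Pool.Agent.Lib.Pabc2 Pool.Agent.Lib.Pabc1

theorem fibreKStmt (A : ℝ) (hA : 0 ≤ A) : FibreKStmt A := by
  intro d η k hd hd1 hη
  exact Pabc10.fibre_rootK d A η k hd hd1 hA hη

/-- **Almost all abc triples.**  For every `e > 0` there is `κ > 0` such that for large `n` the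
triples with `rad (abc) ≤ n` and `c ≥ n ^ (1/3+e)` number at most `n ^ (2/3-κ)`. -/
theorem almost_all : AlmostStmt := almost_of_fibre (fibreKStmt 3 (by norm_num))

theorem tailHyp : AbcG.TailHyp := tailHyp_of_almost almost_all

/-- The same with the condition written with the logarithmic height. -/
theorem almost_all_ht (e : ℝ) (he : 0 < e) : ∃ κ : ℝ, 0 < κ ∧ ∀ᶠ n : ℕ in atTop,
    ∀ T : Finset (ℕ × ℕ),
      (∀ t ∈ T, IsT t ∧ rd t ≤ n ∧ (1 / 3 + e) * Real.log n ≤ ht t) →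
      (T.card : ℝ) ≤ (n : ℝ) ^ (2 / 3 - κ) := by
  obtain ⟨κ, hκ, h⟩ := almost_all e he
  refine ⟨κ, hκ, ?_⟩
  filter_upwards [h, eventually_ge_atTop 1] with n h1 hn1 T hT
  apply h1 T
  intro t ht'
  obtain ⟨hI, hrd, hh⟩ := hT t ht'
  refine ⟨hI, hrd, ?_⟩
  have hn0 : (0 : ℝ) < n := by exact_mod_cast hn1
  have hc0 : (0 : ℝ) < (t.1 : ℝ) + t.2 := by
    have h1 : (0 : ℝ) < t.1 := by exact_mod_cast hI.1
    have h2 : (0 : ℝ) ≤ t.2 := Nat.cast_nonneg _
    linarith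
  rw [← Real.log_le_log_iff (by positivity) hc0, Real.log_rpow hn0]
  exact hh

end Pool.Agent.Lib.Pabc12
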